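import Pool.Agent.Y264.QR.Stm

/-! Project QR (MP_07c750_an), job QR-DENS+QL: `StDens` and `StQL`. -/

set_option autoImplicit false

open Set Filter Topology MeasureTheory

namespace Pool.Agent.Y401.QR

open Pool.Agent.Y264.QR

lemma approx {a : ℕ → ℝ} {b : ℝ} (h : ∀ ε > 0, ∃ (c : ℕ → ℝ) (d : ℝ), Tendsto c atTop (𝓝 d) ∧
    (∀ j, |a j - c j| ≤ ε) ∧ |b - d| ≤ ε) : Tendsto a atTop (𝓝 b) := by
  rw [Metric.tendsto_atTop]
  intro ε hε
  obtain ⟨c, d, h1, h2, h3⟩ := h (ε / 4) (by positivity)
  obtain ⟨N, hN⟩ := Metric.tendsto_atTop.1 h1 (ε / 4) (by positivity)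
  refine ⟨N, fun j hj => ?_⟩
  have h4 := hN j hj
  have h5 := h2 j
  rw [Real.dist_eq] at h4 ⊢
  rw [abs_le] at h5 h3
  rw [abs_lt] at h4 ⊢
  constructor <;> linarith [h4.1, h4.2, h5.1, h5.2, h3.1, h3.2]

lemma mulInt {f κ : ℝ → ℝ} {K : ℝ} (hf : Integrable f volume) (hκ : AEMeasurable κ volume)
    (hK : ∀ᵐ t : ℝ, |κ t| ≤ K) : Integrable (fun t => f t * κ t) volume := by
  refine (hf.norm.mul_const K).mono' (hf.1.mul hκ.aestronglyMeasurable) ?_
  filter_upwards [hK] with t ht
  rw [norm_mul]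
  exact mul_le_mul_of_nonneg_left ht (norm_nonneg _)

lemma mulBd {f κ : ℝ → ℝ} {K : ℝ} (hf : Integrable f volume)
    (hK : ∀ᵐ t : ℝ, |κ t| ≤ K) : |∫ t, f t * κ t| ≤ K * ∫ t, ‖f t‖ := by
  have h := norm_integral_le_of_norm_le (hf.norm.mul_const K) (f := fun t => f t * κ t) (by
    filter_upwards [hK] with t ht
    rw [norm_mul]
    exact mul_le_mul_of_nonneg_left ht (norm_nonneg _))
  rw [integral_mul_const, Real.norm_eq_abs] at h
  linarith

/-- comparison with a step function -/
lemma step {g κ : ℝ → ℝ} {K R ε : ℝ} (hR : 0 < R) (hg : Continuous g)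
    (hgR : ∀ x, R ≤ ‖x‖ → g x = 0) (hκ : AEMeasurable κ volume)
    (hK : ∀ᵐ t : ℝ, |κ t| ≤ K) (hε : 0 ≤ ε) {N : ℕ} (hN : 0 < N)
    (hu : ∀ x y, |x - y| ≤ 2 * R / N → |g x - g y| ≤ ε) :
    |(∫ t, g t * κ t) - ∑ k ∈ Finset.range N, g (-R + k * (2 * R / N)) *
      ∫ t in (-R + k * (2 * R / N))..(-R + ((k + 1 : ℕ) : ℝ) * (2 * R / N)), κ t|
      ≤ 2 * R * (ε * K) := by
  set a : ℕ → ℝ := fun k => -R + k * (2 * R / N) with ha
  have hN0 : (0 : ℝ) < N := by exact_mod_cast hN
  have hd0 : 0 < 2 * R / N := by positivity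
  have hsub : ∀ k, a (k + 1) - a k = 2 * R / N := by
    intro k
    simp only [ha]
    push_cast
    ring
  have hint : ∀ x y : ℝ, IntervalIntegrable κ volume x y := by
    intro x y
    have h1 : IntervalIntegrable (fun _ : ℝ => K) volume x y := intervalIntegrable_const
    refine h1.mono_fun' hκ.aestronglyMeasurable.restrict ?_
    exact ae_restrict_of_ae hK
  have hint2 : ∀ x y : ℝ, IntervalIntegrable (fun t => g t * κ t) volume x y := fun x y =>
    (hint x y).continuousOn_mul hg.continuousOn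
  have h0 : ∫ t, g t * κ t = ∫ t in (-R)..R, g t * κ t := by
    rw [intervalIntegral.integral_of_le (by linarith)]
    symm
    refine setIntegral_eq_integral_of_forall_compl_eq_zero fun x hx => ?_
    have h1 : R ≤ ‖x‖ := by
      rw [Real.norm_eq_abs]
      by_contra hlt
      rw [not_le, abs_lt] at hlt
      exact hx ⟨hlt.1, hlt.2.le⟩
    rw [hgR x h1, zero_mul]
  have h1 : ∫ t in (-R)..R, g t * κ t = ∑ k ∈ Finset.range N, ∫ t in (a k)..(a (k + 1)),
      g t * κ t := by
    rw [intervalIntegral.sum_integral_adjacent_intervals fun k _ => hint2 _ _]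
    have e0 : a 0 = -R := by simp [ha]
    have e1 : a N = R := by
      simp only [ha]
      field_simp
      ring
    rw [e0, e1]
  rw [h0, h1, ← Finset.sum_sub_distrib]
  refine (Finset.abs_sum_le_sum_abs _ _).trans ?_
  have h2 : ∀ k ∈ Finset.range N, |(∫ t in (a k)..(a (k + 1)), g t * κ t) -
      g (a k) * ∫ t in (a k)..(a (k + 1)), κ t| ≤ ε * K * (2 * R / N) := by
    intro k _
    have e1 : (∫ t in (a k)..(a (k + 1)), g t * κ t) - g (a k) * ∫ t in (a k)..(a (k + 1)), κ t
        = ∫ t in (a k)..(a (k + 1)), (g t - g (a k)) * κ t := by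
      rw [← intervalIntegral.integral_const_mul, ← intervalIntegral.integral_sub (hint2 _ _)
        ((hint _ _).const_mul _)]
      refine intervalIntegral.integral_congr fun t _ => ?_
      ring
    have hle : a k ≤ a (k + 1) := by linarith [hsub k]
    have h3 := intervalIntegral.norm_integral_le_of_norm_le_const_ae (a := a k) (b := a (k + 1))
      (C := ε * K) (f := fun t => (g t - g (a k)) * κ t) (by
        filter_upwards [hK] with t ht hmem
        rw [uIoc_of_le hle] at hmem
        rw [norm_mul, Real.norm_eq_abs, Real.norm_eq_abs]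
        have h4 : |g t - g (a k)| ≤ ε := by
          apply hu
          rw [abs_of_pos (by linarith [hmem.1])]
          linarith [hmem.2, hsub k]
        exact mul_le_mul h4 ht (abs_nonneg _) hε)
    rw [e1, ← Real.norm_eq_abs]
    rw [hsub, abs_of_pos hd0] at h3
    exact h3
  refine (Finset.sum_le_sum h2).trans (le_of_eq ?_)
  rw [Finset.sum_const, Finset.card_range, nsmul_eq_mul]
  field_simp

/-- job QR-DENS -/
theorem t_Dens : StDens := by
  intro κ κ' K hm hm' hb hb' hI χ hχ
  have hK0 : 0 ≤ K := by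
    obtain ⟨t, ht⟩ := hb'.exists
    exact (abs_nonneg _).trans ht
  apply approx
  intro ε hε
  obtain ⟨g, hgc, hg1, hg2, hg3⟩ :=
    hχ.exists_hasCompactSupport_integral_sub_le (ε := ε / (K + 1)) (by positivity)
  have key : ∀ k : ℝ → ℝ, AEMeasurable k volume → (∀ᵐ t : ℝ, |k t| ≤ K) →
      |(∫ t, χ t * k t) - ∫ t, g t * k t| ≤ ε := by
    intro k hk hkb
    have e : (∫ t, χ t * k t) - ∫ t, g t * k t = ∫ t, (χ t - g t) * k t := by
      rw [← integral_sub (mulInt hχ hk hkb) (mulInt hg3 hk hkb)]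
      refine integral_congr_ae (Eventually.of_forall fun t => ?_)
      ring
    rw [e]
    refine (mulBd (hχ.sub hg3) hkb).trans ?_
    calc K * ∫ t, ‖(χ - g) t‖ ≤ K * (ε / (K + 1)) := by
          gcongr
          exact hg1
      _ ≤ (K + 1) * (ε / (K + 1)) := by
          gcongr
          linarith
      _ = ε := by field_simp
  refine ⟨fun j => ∫ t, g t * κ j t, ∫ t, g t * κ' t, ?_, fun j => key _ (hm j) (hb j),
    key _ hm' hb'⟩
  -- continuous functions with compact support
  obtain ⟨R, hR, hgR⟩ := hgc.exists_pos_le_norm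
  have hu := hgc.uniformContinuous_of_continuous hg2
  apply approx
  intro η hη
  set ε1 : ℝ := η / (2 * R * (K + 1)) with hε1
  have hε1p : 0 < ε1 := by positivity
  obtain ⟨δ, hδ, hd⟩ := Metric.uniformContinuous_iff.1 hu ε1 hε1p
  obtain ⟨N, hN⟩ := exists_nat_gt (2 * R / δ)
  have hN0 : (0 : ℝ) < N := lt_trans (by positivity) hN
  have hNp : 0 < N := by exact_mod_cast hN0
  have hs : ∀ x y, |x - y| ≤ 2 * R / N → |g x - g y| ≤ ε1 := by
    intro x y hxy
    have h1 : 2 * R / N < δ := by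
      rw [div_lt_iff₀ hδ] at hN
      rw [div_lt_iff₀ hN0]
      linarith
    have h2 := hd (a := x) (b := y) (by rw [Real.dist_eq]; linarith)
    rw [Real.dist_eq] at h2
    exact h2.le
  have hle : 2 * R * (ε1 * K) ≤ η := by
    calc 2 * R * (ε1 * K) ≤ 2 * R * (ε1 * (K + 1)) := by
          gcongr
          linarith
      _ = η := by
          rw [hε1]
          field_simp
  refine ⟨fun j => ∑ k ∈ Finset.range N, g (-R + k * (2 * R / N)) *
      ∫ t in (-R + k * (2 * R / N))..(-R + ((k + 1 : ℕ) : ℝ) * (2 * R / N)), κ j t,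
    ∑ k ∈ Finset.range N, g (-R + k * (2 * R / N)) *
      ∫ t in (-R + k * (2 * R / N))..(-R + ((k + 1 : ℕ) : ℝ) * (2 * R / N)), κ' t, ?_, ?_, ?_⟩
  · refine tendsto_finsetSum _ fun k _ => ?_
    refine (hI _ _ ?_).const_mul _
    have : 0 < 2 * R / N := by positivity
    push_cast
    linarith
  · exact fun j => (step hR hg2 hgR (hm j) (hb j) hε1p.le hNp hs).trans hle
  · exact (step hR hg2 hgR hm' hb' hε1p.le hNp hs).trans hle

/-- job QR-QL -/
theorem t_QL : StQL := by
  intro Ω _ P _ X Y K hX hY hXb hYb hw J hJ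
  classical
  set X' : ℕ → Ω → ℝ := fun j => (hX j).mk (X j) with hX'
  set Y' : Ω → ℝ := hY.mk Y with hY'
  have hXm : ∀ j, Measurable (X' j) := fun j => (hX j).stronglyMeasurable_mk.measurable
  have hYm : Measurable Y' := hY.stronglyMeasurable_mk.measurable
  have hXe : ∀ j, X j =ᵐ[P] X' j := fun j => (hX j).ae_eq_mk
  have hYe : Y =ᵐ[P] Y' := hY.ae_eq_mk
  set A : Set Ω := {o | ∃ L, Tendsto (fun k => X' (J k) o) atTop (𝓝 L)} with hA
  have hAm : MeasurableSet A := measurableSet_exists_tendsto fun k => hXm (J k)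
  set Z : ℕ → Ω → ℝ := fun k => A.indicator (X' (J k)) with hZ
  have hZm : ∀ k, Measurable (Z k) := fun k => (hXm (J k)).indicator hAm
  have hlim : ∀ o, ∃ L, Tendsto (fun k => Z k o) atTop (𝓝 L) := by
    intro o
    by_cases ho : o ∈ A
    · obtain ⟨L, hL⟩ := ho
      refine ⟨L, hL.congr fun k => ?_⟩
      rw [hZ]
      exact (indicator_of_mem (s := A) (a := o) ⟨L, hL⟩ _).symm
    · refine ⟨0, tendsto_const_nhds.congr fun k => ?_⟩
      rw [hZ]
      exact (indicator_of_notMem ho _).symm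
  choose L' hL' using hlim
  have hLm : Measurable L' := measurable_of_tendsto_metrizable hZm (tendsto_pi_nhds.2 hL')
  have hZb : ∀ᵐ o ∂P, ∀ k, ‖Z k o‖ ≤ |K| := by
    rw [ae_all_iff]
    intro k
    filter_upwards [hXb (J k), hXe (J k)] with o h1 h2
    refine (norm_indicator_le_norm_self _ _).trans ?_
    rw [← h2, Real.norm_eq_abs]
    exact h1.trans (le_abs_self K)
  have hLb : ∀ᵐ o ∂P, ‖L' o‖ ≤ |K| := by
    filter_upwards [hZb] with o ho
    exact le_of_tendsto (hL' o).norm (Eventually.of_forall ho)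
  have hLi : Integrable L' P := Integrable.of_bound hLm.aestronglyMeasurable |K| hLb
  have hYi : Integrable (A.indicator Y') P := by
    refine Integrable.of_bound (hYm.indicator hAm).aestronglyMeasurable |K| ?_
    filter_upwards [hYb, hYe] with o h1 h2
    refine (norm_indicator_le_norm_self _ _).trans ?_
    rw [← h2, Real.norm_eq_abs]
    exact h1.trans (le_abs_self K)
  have heq : L' =ᵐ[P] A.indicator Y' := by
    refine Integrable.ae_eq_of_forall_setIntegral_eq _ _ hLi hYi fun B hB _ => ?_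
    have h1 : Tendsto (fun k => ∫ o in B, Z k o ∂P) atTop (𝓝 (∫ o in B, L' o ∂P)) := by
      refine tendsto_integral_of_dominated_convergence (fun _ => |K|)
        (fun k => (hZm k).aestronglyMeasurable) (integrable_const _) (fun k => ?_) ?_
      · exact ae_restrict_of_ae (hZb.mono fun o ho => ho k)
      · exact Eventually.of_forall hL'
    set χ : Ω → ℝ := (B ∩ A).indicator fun _ => (1 : ℝ) with hχ
    have hχi : Integrable χ P := (integrable_const (1 : ℝ)).indicator (hB.inter hAm)
    have h2 := (hw χ hχi).comp hJ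
    have e1 : ∀ k, ∫ o, χ o * X (J k) o ∂P = ∫ o in B, Z k o ∂P := by
      intro k
      rw [← integral_indicator hB]
      refine integral_congr_ae ?_
      filter_upwards [hXe (J k)] with o ho
      rw [hχ, hZ, ho]
      by_cases h3 : o ∈ B <;> by_cases h4 : o ∈ A <;> simp [indicator, h3, h4]
    have e2 : ∫ o, χ o * Y o ∂P = ∫ o in B, A.indicator Y' o ∂P := by
      rw [← integral_indicator hB]
      refine integral_congr_ae ?_
      filter_upwards [hYe] with o ho
      rw [hχ, ho]
      by_cases h3 : o ∈ B <;> by_cases h4 : o ∈ A <;> simp [indicator, h3, h4]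
    rw [e2] at h2
    exact tendsto_nhds_unique h1 (h2.congr e1)
  have hall : ∀ᵐ o ∂P, ∀ k, X (J k) o = X' (J k) o := ae_all_iff.2 fun k => hXe (J k)
  filter_upwards [heq, hall, hYe] with o h1 h2 h3 L hL
  have hL2 : Tendsto (fun k => X' (J k) o) atTop (𝓝 L) := hL.congr h2
  have hoA : o ∈ A := ⟨L, hL2⟩
  have h4 : Tendsto (fun k => Z k o) atTop (𝓝 L) := by
    refine hL2.congr fun k => ?_
    rw [hZ]
    exact (indicator_of_mem hoA _).symm
  have h5 := tendsto_nhds_unique h4 (hL' o)
  rw [h5, h1, indicator_of_mem hoA, h3]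

end Pool.Agent.Y401.QR

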